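import Pool.Agent.TH408.KF.Ci4

/-!
# k-fold sums and products: the exponents for k at least 3
-/

set_option autoImplicit false
set_option linter.all false
set_option maxHeartbeats 1000000

open Finset
open scoped Pointwise

namespace Pool.Agent.TH408.KF

open Pool.Agent.W798.SP Pool.Agent.W798.KF Pool.Agent.TH408.SP
open Pool.Agent.W741.KF (lg_le sm_ne pr_ne pr_pos)
open Pool.Agent.W839.KF (posPart sm_nonempty)
open Pool.Agent.W359.KF (decE lowX)

/-- The exponent for the `(j+2)`-fold sets, `j` at least 1. -/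
noncomputable def ex4 (j : ℕ) : ℝ :=
  (1458 * (2 ^ j) ^ 2 - 941 * 2 ^ j + 92) / (2 ^ j * (972 * 2 ^ j - 518))

theorem li4 (j : ℕ) (hj : 1 ≤ j) (x y : ℕ → ℝ) (n c E : ℝ) (hc : 0 ≤ c) (hE : 0 ≤ E)
    (hST : ∀ i i' : ℕ, 3 * n + x i + y i' ≤ c + 2 * x (i + 1) + 2 * y (i' + 1))
    (h2 : 19 * n + 5 * x 1 ≤ E + 9 * y 1 + 10 * x 2)
    (h3 : 255 * n ≤ E + 105 * x 1 + 79 * y 1 + 6 * x 2) :
    ex4 j * n ≤ max (x (j + 1)) (y (j + 1)) + 1 * (c + E) := by
  obtain ⟨k, rfl⟩ : ∃ k, j = k + 1 := ⟨j - 1, by omega⟩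
  have hD := decE x y n c hST (k + 1)
  have hR := lowX x y n c hc hST k
  have h4 := le_max_left (x (k + 1 + 1)) (y (k + 1 + 1))
  have h5 := le_max_right (x (k + 1 + 1)) (y (k + 1 + 1))
  have e4 : k + 1 + 1 = k + 2 := by ring
  rw [e4] at hD h4 h5 ⊢
  set m := max (x (k + 2)) (y (k + 2))
  have hT : (1 : ℝ) ≤ 2 ^ k := one_le_pow₀ (by norm_num)
  unfold ex4
  have epow : (2 : ℝ) ^ (k + 1) = 2 ^ k * 2 := pow_succ 2 k
  rw [epow] at hD ⊢
  set T : ℝ := 2 ^ k with hTdef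
  set t : ℝ := T * 2 with ht
  have ht2 : 2 ≤ t := by rw [ht]; linarith
  have hTt : T = t / 2 := by rw [ht]; ring
  rw [hTt] at hR
  set e : ℝ := 3 * n - x (k + 2) - y (k + 2) with he
  have hem : 3 * n - 2 * m ≤ e := by rw [he]; linarith
  have hD' : t * (3 * n - 2 * m) ≤ (3 * n - x 1 - y 1) + (t - 1) * c :=
    (mul_le_mul_of_nonneg_left hem (by linarith)).trans hD
  have hR1 : t * x 2 + t * (t - 2) * e - (t - 2) * (3 * n - x 2 - y 1) - t * (t - 2) * c ≤
      t * x (k + 2) := by nlinarith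
  have hR2 : t * (t - 2) * (3 * n - 2 * m) ≤ t * (t - 2) * e :=
    mul_le_mul_of_nonneg_left hem (mul_nonneg (by linarith) (by linarith))
  have hR3 : t * x (k + 2) ≤ t * m := mul_le_mul_of_nonneg_left h4 (by linarith)
  have hR' : t * x 2 + t * (t - 2) * (3 * n - 2 * m) - (t - 2) * (3 * n - x 2 - y 1) -
      t * (t - 2) * c ≤ t * m := by linarith
  have g1 := mul_le_mul_of_nonneg_left hD' (by linarith : (0 : ℝ) ≤ 800 * t - 260)
  have g2 := mul_le_mul_of_nonneg_left hR' (by norm_num : (0 : ℝ) ≤ 172)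
  have g3 := mul_le_mul_of_nonneg_left h2 (by linarith : (0 : ℝ) ≤ 29 * t - 32)
  have g4 := mul_le_mul_of_nonneg_left h3 (by linarith : (0 : ℝ) ≤ 9 * t - 4)
  have hden : 0 < t * (972 * t - 518) := mul_pos (by linarith) (by linarith)
  rw [div_mul_eq_mul_div, div_le_iff₀ hden]
  have g5 : 0 ≤ (2 * t * (972 * t - 518) - ((800 * t - 260) * (t - 1) + 172 * (t * (t - 2)))) * c :=
    mul_nonneg (by nlinarith) hc
  have g6 : 0 ≤ (2 * t * (972 * t - 518) - (38 * t - 36)) * E :=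
    mul_nonneg (by nlinarith) hE
  nlinarith

theorem one_le_ex4 (j : ℕ) (hj : 1 ≤ j) : 1 ≤ ex4 j := by
  have hX : (1:ℝ) ≤ 2 ^ j := one_le_pow₀ (by norm_num)
  unfold ex4
  set X : ℝ := 2 ^ j with hXd
  have hden : 0 < X * (972 * X - 518) := by
    apply mul_pos (by linarith)
    linarith
  rw [le_div_iff₀ hden]
  nlinarith [mul_le_mul hX hX zero_le_one (by linarith : (0:ℝ) ≤ X)]

theorem kp4 (hAS4 : S_AS4) (hDY3 : S_DY3) (j : ℕ) (hj : 1 ≤ j) (δ : ℝ) (hδ : 0 < δ) : ∃ c : ℝ, 0 < c ∧ ∀ A : Finset ℝ,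
    A.Nonempty → (∀ x ∈ A, 0 < x) → c * (A.card : ℝ) ^ (ex4 j - δ) ≤
      max ((sm A (j + 1)).card : ℝ) ((pr A (j + 1)).card : ℝ) := by
  have hKST := pKST
  have hSS := pSS
  obtain ⟨C, hC0, hC⟩ : ∃ C : ℝ, 0 ≤ C ∧ ∀ (x y : ℕ → ℝ) (n c E : ℝ), 0 ≤ c → 0 ≤ E →
    (∀ i i' : ℕ, 3 * n + x i + y i' ≤ c + 2 * x (i + 1) + 2 * y (i' + 1)) →
    19 * n + 5 * x 1 ≤ E + 9 * y 1 + 10 * x 2 →
    255 * n ≤ E + 105 * x 1 + 79 * y 1 + 6 * x 2 →
    ex4 j * n ≤ max (x (j + 1)) (y (j + 1)) + C * (c + E) := ⟨1, zero_le_one, li4 j hj⟩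
  obtain ⟨d, hd⟩ : ∃ d : ℝ, d = δ / (C + 1) := ⟨_, rfl⟩
  have hd0 : 0 < d := by rw [hd]; positivity
  have hCd : C * d ≤ δ := by
    rw [hd, mul_div_assoc', div_le_iff₀ (by positivity)]
    nlinarith
  obtain ⟨η, hηd⟩ : ∃ η : ℝ, η = d / 66 := ⟨_, rfl⟩
  have hη : 0 < η := by rw [hηd]; positivity
  obtain ⟨c1, hc1d⟩ : ∃ c1 : ℝ, c1 = cst4 d := ⟨_, rfl⟩
  have hc10 : 0 ≤ c1 := by rw [hc1d]; exact cst4_nonneg d
  obtain ⟨C0, hC0d⟩ : ∃ C0 : ℝ, C0 = |6 * Real.log 4 + 5 * Real.log 4097 +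
    11 * (η - Real.log η)| + c1 := ⟨_, rfl⟩
  have hC00 : 0 ≤ C0 := by rw [hC0d]; positivity
  refine ⟨Real.exp (-(C * (Real.log 512 + C0))), Real.exp_pos _, ?_⟩
  intro A hA hpos
  have hN1 : 1 ≤ A.card := hA.card_pos
  have hNpos : (0 : ℝ) < A.card := by exact_mod_cast hN1
  have hn0 : 0 ≤ Real.log A.card := Real.log_nonneg (by exact_mod_cast hN1)
  have hsm : ∀ i, (0 : ℝ) < ((sm A i).card : ℝ) := fun i => by
    exact_mod_cast (sm_ne A hA i).card_pos
  have hpr : ∀ i, (0 : ℝ) < ((pr A i).card : ℝ) := fun i => by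
    exact_mod_cast (pr_ne A hA i).card_pos
  have hc1 : ∀ i i' : ℕ, 3 * Real.log A.card + Real.log ((sm A i).card : ℝ) +
      Real.log ((pr A i').card : ℝ) ≤ Real.log 512 + 2 * Real.log ((sm A (i + 1)).card : ℝ) +
        2 * Real.log ((pr A (i' + 1)).card : ℝ) := by
    intro i i'
    have h := hKST A (sm A i) (pr A i') hpos (fun g hg => (pr_pos A hpos i' g hg).ne')
    have h' : (A.card : ℝ) ^ 3 * ((sm A i).card : ℝ) * ((pr A i').card : ℝ) ≤
        512 * ((sm A (i + 1)).card : ℝ) ^ 2 * ((pr A (i' + 1)).card : ℝ) ^ 2 := by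
      exact_mod_cast h
    have hs := hsm i
    have hp := hpr i'
    have hs' := hsm (i + 1)
    have hp' := hpr (i' + 1)
    have h2 := Real.log_le_log (by positivity) h'
    rw [Real.log_mul (by positivity) (by positivity), Real.log_mul (by positivity) (by positivity),
      Real.log_mul (by positivity) (by positivity), Real.log_mul (by positivity) (by positivity),
      Real.log_pow, Real.log_pow, Real.log_pow] at h2
    push_cast at h2
    linarith
  have hs1 := hsm 1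
  have hs2 := hsm 2
  have hp1 := hpr 1
  have hs2N : (sm A 2).card ≤ A.card ^ 3 := by
    have h1 : (sm A 2).card ≤ A.card * (sm A 1).card := Finset.card_add_le
    have h2 : (sm A 1).card ≤ A.card * A.card := Finset.card_add_le
    calc (sm A 2).card ≤ A.card * (sm A 1).card := h1
      _ ≤ A.card * (A.card * A.card) := Nat.mul_le_mul_left _ h2
      _ = A.card ^ 3 := by ring
  have hc2 : 19 * Real.log A.card + 5 * Real.log ((sm A 1).card : ℝ) ≤ (d * Real.log A.card + C0) +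
      9 * Real.log ((pr A 1).card : ℝ) + 10 * Real.log ((sm A 2).card : ℝ) := by
    have h := hSS A (sm A 1) hA (sm_ne A hA 1) hpos
    have h' : (A.card : ℝ) ^ 19 * ((sm A 1).card : ℝ) ^ 5 ≤
        (4 * ((Nat.log 2 A.card : ℝ) + 1)) ^ 6 *
          (4097 * ((Nat.log 2 (sm A 2).card : ℝ) + 1)) ^ 5 * ((pr A 1).card : ℝ) ^ 9 *
            ((sm A 2).card : ℝ) ^ 10 := by
      exact_mod_cast h
    have h2 := Real.log_le_log (by positivity) h'
    have hl1 : (0 : ℝ) ≤ (Nat.log 2 A.card : ℝ) := Nat.cast_nonneg _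
    have hl2 : (0 : ℝ) ≤ (Nat.log 2 (sm A 2).card : ℝ) := Nat.cast_nonneg _
    rw [Real.log_mul (by positivity) (by positivity), Real.log_mul (by positivity) (by positivity),
      Real.log_mul (by positivity) (by positivity), Real.log_mul (by positivity) (by positivity),
      Real.log_pow, Real.log_pow, Real.log_pow, Real.log_pow, Real.log_pow, Real.log_pow] at h2
    push_cast at h2
    have h3 := lg_le hη hN1 hN1 (Nat.le_self_pow (by norm_num) A.card) 4 (by norm_num)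
    have h4 := lg_le hη hN1 (sm_ne A hA 2).card_pos hs2N 4097 (by norm_num)
    have h5 : 66 * (η * Real.log A.card) = d * Real.log A.card := by rw [hηd]; ring
    have h6 : 6 * Real.log 4 + 5 * Real.log 4097 + 11 * (η - Real.log η) ≤ C0 := by
      rw [hC0d]
      have := le_abs_self (6 * Real.log 4 + 5 * Real.log 4097 + 11 * (η - Real.log η))
      linarith
    linarith
  have hc3 : 255 * Real.log A.card ≤ (d * Real.log A.card + C0) +
      105 * Real.log ((sm A 1).card : ℝ) + 79 * Real.log ((pr A 1).card : ℝ) +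
      6 * Real.log ((sm A 2).card : ℝ) := by
    have h : 255 * Real.log A.card ≤ 105 * Real.log ((sm A 1).card : ℝ) +
        79 * Real.log ((pr A 1).card : ℝ) + 6 * Real.log ((sm A 2).card : ℝ) +
          d * Real.log A.card + c1 := by
      rw [hc1d]
      exact ci4 hAS4 hDY3 hd0 A hA hpos
    have h6 : c1 ≤ C0 := by
      rw [hC0d]
      have := abs_nonneg (6 * Real.log 4 + 5 * Real.log 4097 + 11 * (η - Real.log η))
      linarith
    linarith
  have hE0 : 0 ≤ d * Real.log A.card + C0 := by positivity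
  have hfin := hC (fun i => Real.log ((sm A i).card : ℝ)) (fun i => Real.log ((pr A i).card : ℝ))
    (Real.log A.card) (Real.log 512) (d * Real.log A.card + C0)
    (Real.log_nonneg (by norm_num)) hE0 hc1 hc2 hc3
  have hfin2 : (ex4 j - δ) * Real.log A.card - C * (Real.log 512 + C0) ≤
      max (Real.log ((sm A (j + 1)).card : ℝ)) (Real.log ((pr A (j + 1)).card : ℝ)) := by
    have h1 : C * d * Real.log A.card ≤ δ * Real.log A.card :=
      mul_le_mul_of_nonneg_right hCd hn0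
    linarith
  have e1 : (A.card : ℝ) ^ (ex4 j - δ) = Real.exp ((ex4 j - δ) * Real.log A.card) := by
    rw [Real.rpow_def_of_pos hNpos, mul_comm]
  rw [e1, ← Real.exp_add]
  rcases le_max_iff.1 hfin2 with h | h
  · refine le_trans ?_ (le_max_left _ _)
    rw [← Real.le_log_iff_exp_le (hsm (j + 1))]
    linarith
  · refine le_trans ?_ (le_max_right _ _)
    rw [← Real.le_log_iff_exp_le (hpr (j + 1))]
    linarith

theorem kr4 (hAS4 : S_AS4) (hDY3 : S_DY3) (j : ℕ) (hj : 1 ≤ j) (δ : ℝ) (hδ : 0 < δ) : ∃ c : ℝ, 0 < c ∧ ∀ A : Finset ℝ,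
    A.Nonempty → c * (A.card : ℝ) ^ (ex4 j - δ) ≤
      max ((sm A (j + 1)).card : ℝ) ((pr A (j + 1)).card : ℝ) := by
  have hδ' : 0 < min δ 1 := lt_min hδ one_pos
  obtain ⟨c, hc, hP⟩ := kp4 hAS4 hDY3 j hj (min δ 1) hδ'
  have hE := one_le_ex4 j hj
  set E : ℝ := ex4 j with hEd
  have he0 : 0 ≤ E - min δ 1 := by
    have := min_le_right δ 1
    linarith
  have he1 : E - min δ 1 ≤ E := by linarith
  have he2 : E - δ ≤ E - min δ 1 := by
    have := min_le_left δ 1
    linarith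
  set e : ℝ := E - min δ 1 with he
  refine ⟨min c 1 / 3 ^ E, by positivity, ?_⟩
  intro A hA
  have hA1 : 1 ≤ A.card := hA.card_pos
  have hN1 : (1:ℝ) ≤ A.card := by exact_mod_cast hA1
  have hcn : 0 ≤ min c 1 / 3 ^ E := by positivity
  have hstep : min c 1 / 3 ^ E * (A.card : ℝ) ^ (E - δ) ≤
      min c 1 / 3 ^ E * (A.card : ℝ) ^ e :=
    mul_le_mul_of_nonneg_left (Real.rpow_le_rpow_of_exponent_le hN1 he2) hcn
  refine hstep.trans ?_
  have h3pos : (0:ℝ) < 3 ^ E := by positivity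
  rcases Nat.lt_or_ge A.card 3 with h3 | h3
  · -- small sets
    have hN3 : (A.card : ℝ) ≤ 3 := by exact_mod_cast h3.le
    have h1 : (A.card : ℝ) ^ e ≤ 3 ^ E := by
      calc (A.card : ℝ) ^ e ≤ 3 ^ e := Real.rpow_le_rpow (by linarith) hN3 he0
        _ ≤ 3 ^ E := Real.rpow_le_rpow_of_exponent_le (by norm_num) he1
    have h2 : min c 1 / 3 ^ E * (A.card : ℝ) ^ e ≤ 1 := by
      rw [div_mul_eq_mul_div, div_le_one h3pos]
      calc min c 1 * (A.card : ℝ) ^ e ≤ 1 * (A.card : ℝ) ^ e :=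
            mul_le_mul_of_nonneg_right (min_le_right _ _) (by positivity)
        _ ≤ 3 ^ E := by rw [one_mul]; exact h1
    have h4 : (1:ℝ) ≤ ((sm A (j + 1)).card : ℝ) := by
      exact_mod_cast (sm_nonempty hA (j + 1)).card_pos
    exact h2.trans (h4.trans (le_max_left _ _))
  · obtain ⟨B, hB0, hBp, hB3, hBs, hBm⟩ := posPart A h3
    have h7 := hP B hB0 hBp
    have h8 : max ((sm B (j + 1)).card : ℝ) ((pr B (j + 1)).card : ℝ) ≤
        max ((sm A (j + 1)).card : ℝ) ((pr A (j + 1)).card : ℝ) :=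
      max_le_max (by exact_mod_cast hBs (j + 1)) (by exact_mod_cast hBm (j + 1))
    refine le_trans ?_ (h7.trans h8)
    have hB3' : (A.card : ℝ) ≤ 3 * B.card := by exact_mod_cast hB3
    have h9 : (A.card : ℝ) ^ e ≤ 3 ^ E * (B.card : ℝ) ^ e := by
      calc (A.card : ℝ) ^ e ≤ (3 * (B.card : ℝ)) ^ e :=
            Real.rpow_le_rpow (by linarith) hB3' he0
        _ = 3 ^ e * (B.card : ℝ) ^ e := Real.mul_rpow (by norm_num) (by positivity)
        _ ≤ 3 ^ E * (B.card : ℝ) ^ e :=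
            mul_le_mul_of_nonneg_right (Real.rpow_le_rpow_of_exponent_le (by norm_num) he1)
              (by positivity)
    calc min c 1 / 3 ^ E * (A.card : ℝ) ^ e
        ≤ min c 1 / 3 ^ E * (3 ^ E * (B.card : ℝ) ^ e) :=
          mul_le_mul_of_nonneg_left h9 hcn
      _ = min c 1 * (B.card : ℝ) ^ e := by
          field_simp
      _ ≤ c * (B.card : ℝ) ^ e :=
          mul_le_mul_of_nonneg_right (min_le_left _ _) (by positivity)

end Pool.Agent.TH408.KF
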